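import Pool.Agent.N566.VV.Defs
import Pool.Agent.H309R4.Jones.SanI
import Pool.Agent.H345J.Tasks
import Pool.Agent.H559R3.J.Cross
import Pool.Agent.H667J.Hex12
import Pool.Agent.H22R3.J.Nat

set_option autoImplicit false

namespace Pool.Agent.N56.VV.Oka

open Matrix Finset Filter Topology
open Pool.Agent.H550R3.Jones (TaskMod TaskInt TaskInv TaskHex1 TaskNat TaskCross Gen br brf Adm
  crossP crossN)
open Pool.Agent.H927R2.J.SanYB (YB YB_gen YB_smul crossP_cont Dn brf_ne)
open Pool.Agent.H309R4.Jones.SanI (key taskSanInv)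
open Pool.Agent.N566.VV (datJ kap fr S_OKA)

/-- the Yang-Baxter equation in coordinates, generic points -/
lemma yb_Dn (N : ℕ) : ∀ x ∈ Dn, YB (crossP N x) := by
  intro x hx
  obtain ⟨u, rfl⟩ := IsAlgClosed.exists_pow_nat_eq x (n := 2) (by norm_num)
  have hu : Gen u := ⟨fun h => hx.1 (by rw [h]; norm_num), hx.2⟩
  have hyb := YB_smul (YB_gen Pool.Agent.H345J.taskMod Pool.Agent.H345J.taskInt
    Pool.Agent.H345J.taskInv Pool.Agent.H667J.taskHex1 Pool.Agent.H22R3.J.taskNat u hu N)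
    (u ^ (-((N : ℤ) ^ 2 - 1)))
  rw [← (Pool.Agent.H559R3.J.taskCross u hu N).1] at hyb
  exact hyb

/-- the Yang-Baxter equation in coordinates -/
lemma yb (N : ℕ) (v : ℂ) (hv : Adm N v) : YB (crossP N v) := by
  intro l i k i' k' l'
  rw [← sub_eq_zero]
  refine key (f := fun x =>
      (∑ a, ∑ b, ∑ m, crossP N x (l, i) (a, m) * crossP N x (m, k) (b, l') *
        crossP N x (a, b) (i', k')) -
      ∑ a, ∑ b, ∑ m, crossP N x (i, k) (a, b) * crossP N x (l, a) (i', m) *
        crossP N x (m, b) (k', l')) ?_ ?_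
  · refine ContinuousAt.sub ?_ ?_
    · refine tendsto_finsetSum _ fun a _ => tendsto_finsetSum _ fun b _ =>
        tendsto_finsetSum _ fun m _ => ?_
      exact ((crossP_cont hv _ _).mul (crossP_cont hv _ _)).mul (crossP_cont hv _ _)
    · refine tendsto_finsetSum _ fun a _ => tendsto_finsetSum _ fun b _ =>
        tendsto_finsetSum _ fun m _ => ?_
      exact ((crossP_cont hv _ _).mul (crossP_cont hv _ _)).mul (crossP_cont hv _ _)
  · intro x hx
    exact sub_eq_zero.2 (yb_Dn N x hx l i k i' k' l')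

lemma kap_ne {N : ℕ} {v : ℂ} (hv : Adm N v) {j : ℕ} (hj : j < N) : kap N v j ≠ 0 := by
  unfold kap
  refine mul_ne_zero (mul_ne_zero (pow_ne_zero _ (by norm_num)) ?_) (zpow_ne_zero _ hv.1)
  refine div_ne_zero (mul_ne_zero (brf_ne hv hj) (brf_ne hv (by omega))) (brf_ne hv (by omega))

/-- identities of the coloured Jones polynomial: everything but slides and curls -/
theorem s_oka : Pool.Agent.N566.VV.S_OKA := by
  intro N v _ hv
  have hinv : crossP N v * crossN N v = 1 ∧ crossN N v * crossP N v = 1 :=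
    taskSanInv Pool.Agent.H345J.taskMod Pool.Agent.H345J.taskInv
      Pool.Agent.H559R3.J.taskCross N v hv
  have h1 : v ^ fr N * v ^ (-fr N) = 1 := by
    rw [← zpow_add₀ hv.1, add_neg_cancel, zpow_zero]
  have h2 : v ^ (-fr N) * v ^ fr N = 1 := by
    rw [mul_comm]; exact h1
  refine ⟨fun x => Fin.rev_rev x, fun x => ?_, h2, ?_, ?_, ?_⟩
  · change (kap N v ((Fin.rev x : Fin N) : ℕ))⁻¹ * kap N v ((Fin.rev x : Fin N) : ℕ) = 1
    exact inv_mul_cancel₀ (kap_ne hv (Fin.rev x).2)
  · change (v ^ fr N • crossP N v) * (v ^ (-fr N) • crossN N v) = 1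
    rw [Matrix.smul_mul, Matrix.mul_smul, smul_smul, h1, hinv.1, one_smul]
  · change (v ^ (-fr N) • crossN N v) * (v ^ fr N • crossP N v) = 1
    rw [Matrix.smul_mul, Matrix.mul_smul, smul_smul, h2, hinv.2, one_smul]
  · exact YB_smul (yb N v hv) (v ^ fr N)

end Pool.Agent.N56.VV.Oka
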